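import Pool.Agent.CLG.Upper
import Pool.Agent.CLG.Gap
import Pool.Agent.CLG.Away
import Pool.Agent.CLG.ValF

/-!
# The exact integrality gap of the configuration LP for every set of sizes

`MP_129990_lc`, Q1, restricted model. For a set `S` of relative sizes consider the instances of
makespan minimisation on unrelated machines in which every processing time is `s T` with `s ∈ S`, or
`T`, or more than `T` (forbidden). The integrality gap of the configuration LP on these instances is
exactly `1 + γ(S)`, where `γ(S)` is the supremum of the total sizes of finite families of items with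
sizes in `S` for which the cutting stock (Gilmore-Gomory) linear program has value less than one. It is
less than `2` if and only if `S` is bounded away from `0`. If at most `k` jobs fit on a machine then the
gap is less than `2`; it is exactly `1, 3/2, 11/6, 47/24` for `k = 1, 2, 3, 4`.
-/

namespace Pool.Agent.Results.MP_129990_lc.ExactConfigGap

/-- The configuration linear program with makespan bound `T` is feasible: every machine `i` has a
weight `y i C ≥ 0` for every set `C` of jobs (a configuration), nonzero only if the jobs of `C` take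
at most `T` on `i`, of total weight at most one, and every job is covered with total weight at least
one. -/
def ConfigFeasible {M J : Type} [Fintype M] [Fintype J] [DecidableEq J] (p : M → J → ℝ) (T : ℝ) :
    Prop :=
  ∃ y : M → Finset J → ℝ,
    (∀ i C, 0 ≤ y i C) ∧
    (∀ i C, y i C ≠ 0 → ∑ j ∈ C, p i j ≤ T) ∧
    (∀ i, ∑ C : Finset J, y i C ≤ 1) ∧
    (∀ j, 1 ≤ ∑ i, ∑ C : Finset J, if j ∈ C then y i C else 0)

/-- the load of machine `i` in the schedule `σ` -/
def load {M J : Type} [DecidableEq M] [Fintype J] (p : M → J → ℝ) (σ : J → M) (i : M) : ℝ :=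
  ∑ j, if σ j = i then p i j else 0

/-- The cutting stock linear program of the items `t₁, …, tₙ` (unit demands, bins of size one, at
most `k` items in a bin, items may be repeated) has value less than one: there are finitely many
patterns `c a` (`c a i` copies of the item `i`) of total size at most one with at most `k` items, and
weights `w a ≥ 0` of total less than one, which cover every item with weight at least one. -/
def Packs (k : ℕ∞) {n : ℕ} (t : Fin n → ℝ) : Prop :=
  ∃ (ι : Type) (_ : Fintype ι) (c : ι → Fin n → ℕ) (w : ι → ℝ),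
    (∀ a, 0 ≤ w a) ∧
    (∀ a, ∑ i, (c a i : ℝ) * t i ≤ 1 ∧ ((∑ i, c a i : ℕ) : ℕ∞) ≤ k) ∧
    ∑ a, w a < 1 ∧
    ∀ i, 1 ≤ ∑ a, w a * (c a i : ℝ)

/-- `γ(S, k)`: the supremum of the total sizes of finite families of positive sizes in `S` whose
cutting stock value (at most `k` items in a bin) is less than one (the empty family has value `0`
and total size `0`) -/
noncomputable def gam (S : Set ℝ) (k : ℕ∞) : ℝ :=
  sSup {g | ∃ (n : ℕ) (t : Fin n → ℝ), (∀ i, t i ∈ S ∧ 0 < t i) ∧ Packs k t ∧ g = ∑ i, t i}

/-- Part one: if the configuration LP with bound `T` is feasible, the processing times on machine `i`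
that are at most `T` are `0`, `T` or in `S i * T`, and at most `k i` jobs fit on machine `i` within `T`
(`k i = ∞` is allowed), then some schedule has load at most `(1 + γ(S i, k i)) T` on every machine `i`.
Part two: for every set `S` and `c < 1 + γ(S, ∞)` there is an instance with processing times in `S`, or
equal to `1` or `2`, with a feasible configuration LP for `T = 1`, in which every schedule has a load
greater than `c`. Part three: `γ(S, ∞) < 1` iff the positive elements of `S` are bounded away from `0`.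
Part four: `γ(ℝ, k) < 1` for every `k`, the values for `k ≤ 4`, and instances in which at most `k ≤ 4`
jobs fit on every machine within `T = 1`, with a feasible configuration LP, in which every schedule has
a load at least `1 + γ(ℝ, k)`. -/
theorem result :
    (∀ (M J : Type) [Fintype M] [Fintype J] [DecidableEq M] [DecidableEq J] (p : M → J → ℝ) (T : ℝ)
        (S : M → Set ℝ) (k : M → ℕ∞), 0 < T → (∀ i j, 0 ≤ p i j) →
        (∀ i j, p i j ≤ T → p i j = 0 ∨ p i j = T ∨ p i j / T ∈ S i) →
        (∀ i (C : Finset J), ∑ j ∈ C, p i j ≤ T → ((C.card : ℕ) : ℕ∞) ≤ k i) →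
        ConfigFeasible p T → ∃ σ : J → M, ∀ i, load p σ i ≤ (1 + gam (S i) (k i)) * T) ∧
    (∀ (S : Set ℝ) (c : ℝ), c < 1 + gam S ⊤ →
      ∃ (M J : Type) (_ : Fintype M) (_ : Fintype J) (_ : DecidableEq M) (_ : DecidableEq J)
        (p : M → J → ℝ),
        (∀ i j, 0 < p i j ∧ (p i j ∈ S ∨ p i j = 1 ∨ p i j = 2)) ∧ ConfigFeasible p 1 ∧
        ∀ σ : J → M, ∃ i, c < load p σ i) ∧
    (∀ S : Set ℝ, gam S ⊤ < 1 ↔ ∃ e : ℝ, 0 < e ∧ ∀ s ∈ S, s ≤ 0 ∨ e ≤ s) ∧
    ((∀ k : ℕ, gam Set.univ (k : ℕ∞) < 1) ∧ gam Set.univ 1 = 0 ∧ gam Set.univ 2 = 1 / 2 ∧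
      gam Set.univ 3 = 5 / 6 ∧ gam Set.univ 4 = 23 / 24 ∧
      ∀ k : ℕ, 1 ≤ k → k ≤ 4 →
        ∃ (M J : Type) (_ : Fintype M) (_ : Fintype J) (_ : DecidableEq M) (_ : DecidableEq J)
          (p : M → J → ℝ),
          (∀ i j, 0 < p i j) ∧ (∀ i (C : Finset J), ∑ j ∈ C, p i j ≤ 1 → C.card ≤ k) ∧
          ConfigFeasible p 1 ∧ ∀ σ : J → M, ∃ i, 1 + gam Set.univ (k : ℕ∞) ≤ load p σ i) := by
  refine ⟨?_, ?_, ?_, ?_⟩
  · intro M J _ _ _ _ p T S k hT hp hS hk h
    exact CLG.upper p T hT hp S k hS hk h
  · intro S c hc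
    have hc' : c - 1 < CLG.gam S ⊤ := by
      have h1 : gam S ⊤ = CLG.gam S ⊤ := rfl
      rw [← h1]
      linarith
    obtain ⟨n, t, h1, h2, h3⟩ := CLG.exists_of_lt_gam hc'
    obtain ⟨M, J, fM, fJ, dM, dJ, p, g1, g2, g3⟩ := CLG.gap_inst t (fun i => (h1 i).2) h2
    refine ⟨M, J, fM, fJ, dM, dJ, p, fun i j => ?_, g2, fun σ => ?_⟩
    · rcases g1 i j with h | h | ⟨l, h⟩
      · exact ⟨by rw [h]; norm_num, Or.inr (Or.inl h)⟩
      · exact ⟨by rw [h]; norm_num, Or.inr (Or.inr h)⟩
      · exact ⟨by rw [h]; exact (h1 l).2, Or.inl (by rw [h]; exact (h1 l).1)⟩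
    · obtain ⟨i, hi⟩ := g3 σ
      refine ⟨i, lt_of_lt_of_le ?_ hi⟩
      linarith
  · intro S
    exact CLG.gam_lt_one_iff S
  · refine ⟨fun k => CLG.gam_univ_lt k, CLG.gam_one, CLG.gam_two, CLG.gam_three, CLG.gam_four, ?_⟩
    have key : ∀ (k : ℕ) (n : ℕ) (t : Fin n → ℝ), 1 ≤ k → (∀ l, 1 / (k : ℝ) ≤ t l) →
        CLG.Packs (k : ℕ∞) t → CLG.gam Set.univ (k : ℕ∞) = ∑ l, t l →
        ∃ (M J : Type) (_ : Fintype M) (_ : Fintype J) (_ : DecidableEq M) (_ : DecidableEq J)
          (p : M → J → ℝ),
          (∀ i j, 0 < p i j) ∧ (∀ i (C : Finset J), ∑ j ∈ C, p i j ≤ 1 → C.card ≤ k) ∧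
          CLG.ConfigFeasible p 1 ∧
          ∀ σ : J → M, ∃ i, 1 + CLG.gam Set.univ (k : ℕ∞) ≤ CLG.load p σ i := by
      intro k n t hk ht hP hg
      have hk0 : (0 : ℝ) < k := by exact_mod_cast hk
      have hkpos : 0 < 1 / (k : ℝ) := by positivity
      obtain ⟨M, J, fM, fJ, dM, dJ, p, g1, g2, g3⟩ :=
        CLG.gap_inst t (fun i => hkpos.trans_le (ht i)) (hP.mono le_top)
      have hle : ∀ i j, 1 / (k : ℝ) ≤ p i j := by
        intro i j
        have h1 : 1 / (k : ℝ) ≤ 1 := by
          rw [div_le_one hk0]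
          exact_mod_cast hk
        rcases g1 i j with h | h | ⟨l, h⟩
        · rw [h]; exact h1
        · rw [h]; linarith
        · rw [h]; exact ht l
      refine ⟨M, J, fM, fJ, dM, dJ, p, fun i j => hkpos.trans_le (hle i j), ?_, g2, ?_⟩
      · intro i C hC
        have h1 : ∑ j ∈ C, 1 / (k : ℝ) ≤ ∑ j ∈ C, p i j := Finset.sum_le_sum fun j _ => hle i j
        rw [Finset.sum_const, nsmul_eq_mul] at h1
        have h2 : (C.card : ℝ) * (1 / (k : ℝ)) ≤ 1 := h1.trans hC
        rw [mul_one_div, div_le_one hk0] at h2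
        exact_mod_cast h2
      · intro σ
        rw [hg]
        exact g3 σ
    intro k hk hk4
    obtain h | h | h | h : k = 1 ∨ k = 2 ∨ k = 3 ∨ k = 4 := by omega
    · subst h
      refine key 1 0 Fin.elim0 le_rfl (fun i => i.elim0) (CLG.packs_zero _ _) ?_
      rw [Finset.univ_eq_empty, Finset.sum_empty]
      exact_mod_cast CLG.gam_one
    · subst h
      refine key 2 1 ![(1 / 2 : ℝ)] (by norm_num) ?_ (by exact_mod_cast CLG.packs_two) ?_
      · intro l
        fin_cases l
        norm_num
      · have := CLG.gam_two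
        rw [Fin.sum_univ_one]
        simpa using this
    · subst h
      refine key 3 2 ![(1 / 2 : ℝ), 1 / 3] (by norm_num) ?_ (by exact_mod_cast CLG.packs_three) ?_
      · intro l
        fin_cases l <;> norm_num
      · have := CLG.gam_three
        rw [Fin.sum_univ_two]
        push_cast
        rw [this]
        norm_num
    · subst h
      refine key 4 3 ![(3 / 8 : ℝ), 1 / 3, 1 / 4] (by norm_num) ?_ (by exact_mod_cast CLG.packs_four) ?_
      · intro l
        fin_cases l <;> norm_num
      · have := CLG.gam_four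
        rw [Fin.sum_univ_three]
        push_cast
        rw [this]
        norm_num

end Pool.Agent.Results.MP_129990_lc.ExactConfigGap
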