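import Mathlib

/-!
# Exchange of feasible job sets on unrelated machines, and the limit of fan-out gadgets

`p i j` is the processing time of job `j` on machine `i`.  The family of the job sets which can be scheduled
within `T` satisfies the exchange axiom of matroids up to the factor `3/2` (and with no smaller factor), and
gadgets which copy a bit exist for the relaxation factor `c` exactly if `c < 3/2`.
-/

open Finset

namespace Pool.Agent.Results.MP_129990_lc.ExchangeThreshold

/-- The job set `X` can be scheduled with makespan at most `B`. -/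
def Schedulable {J M : Type} [DecidableEq M] (p : M → J → ℕ) (B : ℝ) (X : Finset J) : Prop :=
  ∃ s : J → M, ∀ i, ∑ j ∈ X with s j = i, (p i j : ℝ) ≤ B

/-- There is a gadget which copies a bit and tolerates the factor `c`. -/
def FanOutGadget (c : ℝ) : Prop :=
  ∃ (n m : ℕ) (p : Fin m → Fin n → ℕ) (T : ℕ) (N I A B : Finset (Fin n))
    (FI FA FB : Set (Finset (Fin n))),
    (Disjoint N I ∧ Disjoint N A ∧ Disjoint N B ∧ Disjoint I A ∧ Disjoint I B ∧ Disjoint A B) ∧
    (∀ S S' : Finset (Fin n), S ⊆ S' → S ∈ FI → S' ∈ FI) ∧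
    (∀ S ⊆ I, S ∈ FI ∨ I \ S ∈ FI) ∧ ∅ ∉ FA ∧ ∅ ∉ FB ∧
    Schedulable p T (N ∪ I) ∧ Schedulable p T (N ∪ (A ∪ B)) ∧
    ∀ Z ⊆ I ∪ (A ∪ B), Schedulable p (c * T) (N ∪ Z) → Z ∩ I ∈ FI → A \ Z ∈ FA ∧ B \ Z ∈ FB

section exchange

variable {J M : Type} [DecidableEq M]

/-- load of the jobs of `S` placed by `s` on machine `i` -/
private noncomputable def ld (p : M → J → ℕ) (s : J → M) (S : Finset J) (i : M) : ℝ :=
  ∑ j ∈ S with s j = i, (p i j : ℝ)

private theorem ld_nonneg (p : M → J → ℕ) (s : J → M) (S : Finset J) (i : M) : 0 ≤ ld p s S i :=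
  Finset.sum_nonneg fun _ _ => Nat.cast_nonneg _

private theorem ld_mono (p : M → J → ℕ) (s : J → M) {S S' : Finset J} (h : S ⊆ S') (i : M) :
    ld p s S i ≤ ld p s S' i :=
  Finset.sum_le_sum_of_subset_of_nonneg (Finset.filter_subset_filter _ h)
    fun _ _ _ => Nat.cast_nonneg _


open Classical in
/-- the jobs of `K` whose machine in `s` belongs to `W` -/
private noncomputable def kept (s : J → M) (K : Finset J) (W : Set M) : Finset J :=
  K.filter fun j => s j ∈ W

omit [DecidableEq M] in
private theorem mem_kept {s : J → M} {K : Finset J} {W : Set M} {j : J} :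
    j ∈ kept s K W ↔ j ∈ K ∧ s j ∈ W := by
  classical
  simp only [kept, Finset.mem_filter]

omit [DecidableEq M] in
private theorem kept_subset (s : J → M) (K : Finset J) (W : Set M) : kept s K W ⊆ K :=
  fun _ h => (mem_kept.1 h).1

/-- the rule: machine `i` is saturated by `A` and the kept jobs -/
private noncomputable def rule (p : M → J → ℕ) (s t : J → M) (T : ℝ) (K A : Finset J) : Set M →o Set M where
  toFun W := {i | T / 2 < ld p t A i + ld p t (kept s K W) i}
  monotone' := by
    intro W W' h i hi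
    have h1 : kept s K W ⊆ kept s K W' := fun j hj =>
      mem_kept.2 ⟨(mem_kept.1 hj).1, h (mem_kept.1 hj).2⟩
    have h2 := ld_mono p t h1 i
    rw [Set.mem_ofPred_eq] at hi ⊢
    exact lt_of_lt_of_le hi (by linarith)

private theorem mem_rule (p : M → J → ℕ) (s t : J → M) (T : ℝ) (K A : Finset J) (W : Set M) (i : M) :
    i ∈ rule p s t T K A W ↔ T / 2 < ld p t A i + ld p t (kept s K W) i := by
  show i ∈ {i | T / 2 < ld p t A i + ld p t (kept s K W) i} ↔ _
  rw [Set.mem_ofPred_eq]

variable [DecidableEq J]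

private theorem ld_union (p : M → J → ℕ) (s : J → M) {S S' : Finset J} (h : Disjoint S S') (i : M) :
    ld p s (S ∪ S') i = ld p s S i + ld p s S' i := by
  unfold ld
  rw [Finset.filter_union, Finset.sum_union (Finset.disjoint_filter_filter h)]

private theorem rule_disjoint (p : M → J → ℕ) (s t : J → M) (T : ℝ) (K A B : Finset J)
    (hKA : Disjoint A K) (hKB : Disjoint B K) (hAB : Disjoint A B)
    (hT : ∀ i, ld p t ((A ∪ B) ∪ K) i ≤ T) :
    Disjoint (OrderHom.lfp (rule p s t T K A)) (OrderHom.lfp (rule p s t T K B)) := by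
  classical
  rw [← Set.subset_compl_iff_disjoint_right]
  apply OrderHom.lfp_le
  intro i hi
  have hi1 : T / 2 < ld p t A i +
      ld p t (kept s K (OrderHom.lfp (rule p s t T K B))ᶜ) i :=
    (mem_rule p s t T K A _ i).1 hi
  intro hi'
  rw [← OrderHom.map_lfp] at hi'
  have hi2 : T / 2 < ld p t B i +
      ld p t (kept s K (OrderHom.lfp (rule p s t T K B))) i :=
    (mem_rule p s t T K B _ i).1 hi'
  have h1 : ld p t K i = ld p t (kept s K (OrderHom.lfp (rule p s t T K B))) i +
      ld p t (kept s K (OrderHom.lfp (rule p s t T K B))ᶜ) i := by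
    rw [← ld_union]
    · congr 1
      ext j
      simp only [Finset.mem_union, mem_kept, Set.mem_compl_iff]
      tauto
    · rw [Finset.disjoint_left]
      intro j h h'
      exact (mem_kept.1 h').2 (mem_kept.1 h).2
  have h2 := hT i
  have hd : Disjoint (A ∪ B) K := Finset.disjoint_union_left.2 ⟨hKA, hKB⟩
  rw [ld_union p t hd, ld_union p t hAB] at h2
  linarith

/-- The exchange theorem. -/
theorem exchange {ι : Type} (p : M → J → ℕ) (T : ℝ) (X Y : Finset J)
    (hX : Schedulable p T X) (hY : Schedulable p T Y) (A : ι → Finset J) (hA : ∀ k, A k ⊆ Y \ X)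
    (hd : ∀ k l, k ≠ l → Disjoint (A k) (A l)) :
    ∃ R : ι → Finset J, (∀ k, R k ⊆ X \ Y) ∧ (∀ k l, k ≠ l → Disjoint (R k) (R l)) ∧
      ∀ k, Schedulable p (3 / 2 * T) ((X \ R k) ∪ A k) := by
  classical
  obtain ⟨s, hs⟩ := hX
  obtain ⟨t, ht⟩ := hY
  have hs' : ∀ i, ld p s X i ≤ T := hs
  have ht' : ∀ i, ld p t Y i ≤ T := ht
  have hAY : ∀ k, A k ⊆ Y := fun k => (hA k).trans Finset.sdiff_subset
  have hAX : ∀ k, Disjoint (A k) X := fun k =>
    Finset.disjoint_of_subset_left (hA k) Finset.sdiff_disjoint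
  set K := X ∩ Y with hK
  have hKX : K ⊆ X := Finset.inter_subset_left
  have hKY : K ⊆ Y := Finset.inter_subset_right
  let W : ι → Set M := fun k => OrderHom.lfp (rule p s t T K (A k))
  have hAK : ∀ k, Disjoint (A k) K := fun k => Finset.disjoint_of_subset_right hKX (hAX k)
  have hW : ∀ k l, k ≠ l → Disjoint (W k) (W l) := by
    intro k l hkl
    apply rule_disjoint p s t T K (A k) (A l) (hAK k) (hAK l) (hd k l hkl)
    intro i
    refine le_trans (ld_mono p t ?_ i) (ht' i)
    exact Finset.union_subset (Finset.union_subset (hAY k) (hAY l)) hKY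
  refine ⟨fun k => kept s (X \ Y) (W k), fun k => kept_subset _ _ _, ?_, ?_⟩
  · intro k l hkl
    rw [Finset.disjoint_left]
    intro j h h'
    exact Set.disjoint_left.1 (hW k l hkl) (mem_kept.1 h).2 (mem_kept.1 h').2
  · intro k
    let r : J → M := fun j => if j ∈ A k ∨ (j ∈ K ∧ s j ∈ W k) then t j else s j
    refine ⟨r, fun i => ?_⟩
    have hTn : 0 ≤ T := le_trans (ld_nonneg p s X i) (hs' i)
    -- the three parts of the load
    have hsub : (((X \ kept s (X \ Y) (W k)) ∪ A k).filter fun j => r j = i) ⊆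
        (((A k) ∪ (kept s K (W k))).filter fun j => t j = i) ∪
          ((X.filter fun j => s j ∉ W k).filter fun j => s j = i) := by
      intro j hj
      rw [Finset.mem_filter] at hj
      obtain ⟨hj1, hj2⟩ := hj
      by_cases hc : j ∈ A k ∨ (j ∈ K ∧ s j ∈ W k)
      · have hr : r j = t j := if_pos hc
        rw [hr] at hj2
        rw [Finset.mem_union, Finset.mem_filter, Finset.mem_union, mem_kept]
        exact Or.inl ⟨hc, hj2⟩
      · have hr : r j = s j := if_neg hc
        rw [hr] at hj2
        rw [Finset.mem_union]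
        right
        rw [Finset.mem_filter, Finset.mem_filter]
        rw [Finset.mem_union, Finset.mem_sdiff, mem_kept, Finset.mem_sdiff] at hj1
        have hjA : j ∉ A k := fun h => hc (Or.inl h)
        have hj3 : j ∈ X ∧ ¬ ((j ∈ X ∧ j ∉ Y) ∧ s j ∈ W k) := by
          rcases hj1 with h | h
          · exact h
          · exact absurd h hjA
        refine ⟨⟨hj3.1, fun hw => ?_⟩, hj2⟩
        by_cases hjY : j ∈ Y
        · exact hc (Or.inr ⟨Finset.mem_inter.2 ⟨hj3.1, hjY⟩, hw⟩)
        · exact hj3.2 ⟨⟨hj3.1, hjY⟩, hw⟩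
    have h1 : ∑ j ∈ ((X \ kept s (X \ Y) (W k)) ∪ A k) with r j = i, (p i j : ℝ) ≤
        ld p t ((A k) ∪ (kept s K (W k))) i +
          ld p s (X.filter fun j => s j ∉ W k) i := by
      refine le_trans (Finset.sum_le_sum_of_subset_of_nonneg hsub
        fun _ _ _ => Nat.cast_nonneg _) ?_
      unfold ld
      rw [← Finset.sum_union_inter]
      exact le_add_of_nonneg_right (Finset.sum_nonneg fun _ _ => Nat.cast_nonneg _)
    refine le_trans h1 ?_
    have hdis : Disjoint (A k) (kept s K (W k)) :=
      Finset.disjoint_of_subset_right (kept_subset _ _ _) (hAK k)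
    by_cases hi : i ∈ W k
    · -- saturated machine: all jobs of the first schedule have left
      have h2 : ld p s (X.filter fun j => s j ∉ W k) i = 0 := by
        unfold ld
        apply Finset.sum_eq_zero
        intro j hj
        rw [Finset.mem_filter, Finset.mem_filter] at hj
        exact absurd (hj.2 ▸ hi) hj.1.2
      have h3 : ld p t ((A k) ∪ (kept s K (W k))) i ≤ T := by
        refine le_trans (ld_mono p t ?_ i) (ht' i)
        exact Finset.union_subset (hAY k) ((kept_subset _ _ _).trans hKY)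
      rw [h2]
      linarith
    · have h2 : ld p s (X.filter fun j => s j ∉ W k) i ≤ T :=
        le_trans (ld_mono p s (Finset.filter_subset _ _) i) (hs' i)
      have h3 : ¬ T / 2 < ld p t (A k) i + ld p t (kept s K (W k)) i := by
        intro h
        apply hi
        show i ∈ OrderHom.lfp (rule p s t T K (A k))
        rw [← OrderHom.map_lfp]
        exact (mem_rule p s t T K (A k) _ i).2 h
      rw [ld_union p t hdis]
      linarith

/-- The augmentation property. -/
private theorem augment (p : M → J → ℕ) (T : ℝ) (X Y : Finset J)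
    (hX : Schedulable p T X) (hY : Schedulable p T Y) (hc : X.card < Y.card) :
    ∃ y ∈ Y \ X, Schedulable p (3 / 2 * T) (insert y X) := by
  classical
  obtain ⟨R, hR1, hR2, hR3⟩ := exchange (ι := {y // y ∈ Y \ X}) p T X Y hX hY (fun y => {y.1})
    (fun y => Finset.singleton_subset_iff.2 y.2)
    (fun y z hyz => by
      rw [Finset.disjoint_singleton]
      exact fun h => hyz (Subtype.ext h))
  by_contra hno
  push Not at hno
  have hne : ∀ y : {y // y ∈ Y \ X}, (R y).Nonempty := by
    intro y
    rw [Finset.nonempty_iff_ne_empty]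
    intro he
    apply hno y.1 y.2
    have h := hR3 y
    rw [he, Finset.sdiff_empty] at h
    rw [Finset.insert_eq, Finset.union_comm]
    exact h
  choose g hg using hne
  have hinj : Function.Injective g := by
    intro y z hyz
    by_contra hne'
    exact Finset.disjoint_left.1 (hR2 y z hne') (hg y) (hyz ▸ hg z)
  have hcard : (Y \ X).card ≤ (X \ Y).card := by
    have h := Finset.card_le_card_of_injOn (s := (Y \ X).attach) (t := X \ Y) g
      (fun y _ => hR1 y (hg y)) hinj.injOn
    rwa [Finset.card_attach] at h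
  have h1 := Finset.card_sdiff_add_card_inter X Y
  have h2 := Finset.card_sdiff_add_card_inter Y X
  rw [Finset.inter_comm] at h2
  omega

end exchange

private theorem Schedulable.mono {J M : Type} [DecidableEq M] {p : M → J → ℕ} {B B' : ℝ}
    {X : Finset J} (h : Schedulable p B X) (hB : B ≤ B') : Schedulable p B' X := by
  obtain ⟨s, hs⟩ := h
  exact ⟨s, fun i => (hs i).trans hB⟩

/-- the example: one machine, sizes 2, 1, 1 -/
private def exP : Fin 1 → Fin 3 → ℕ := fun _ => ![2, 1, 1]

private theorem exP_iff (B : ℝ) (X : Finset (Fin 3)) :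
    Schedulable exP B X ↔ ∑ j ∈ X, (exP 0 j : ℝ) ≤ B := by
  constructor
  · rintro ⟨s, hs⟩
    have h := hs 0
    have h1 : (X.filter fun j => s j = 0) = X := by
      rw [Finset.filter_eq_self]
      intro j _
      exact Subsingleton.elim _ _
    rwa [h1] at h
  · intro h
    refine ⟨fun _ => 0, fun i => ?_⟩
    have h1 : (X.filter fun _ => (0 : Fin 1) = i) = X := by
      rw [Finset.filter_eq_self]
      intro j _
      exact Subsingleton.elim _ _
    rw [h1, Subsingleton.elim i 0]
    exact h

private theorem exP_pair {c : ℝ} (hc : c < 3 / 2) {X : Finset (Fin 3)} (h0 : 0 ∈ X) {j : Fin 3}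
    (hj : j ∈ X) (hj0 : j ≠ 0) : ¬ Schedulable exP (c * (2 : ℕ)) X := by
  rw [exP_iff]
  intro h
  have hsub : ({0, j} : Finset (Fin 3)) ⊆ X := by
    intro x hx
    rw [Finset.mem_insert, Finset.mem_singleton] at hx
    rcases hx with rfl | rfl
    · exact h0
    · exact hj
  have h1 := Finset.sum_le_sum_of_subset_of_nonneg (f := fun j => (exP 0 j : ℝ)) hsub
    fun _ _ _ => Nat.cast_nonneg _
  rw [Finset.sum_pair (Ne.symm hj0)] at h1
  have h2 : (exP 0 0 : ℝ) = 2 := by norm_num [exP]
  have h3 : (exP 0 j : ℝ) = 1 := by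
    fin_cases j
    · exact absurd rfl hj0
    · norm_num [exP]
    · norm_num [exP]
  rw [h2, h3] at h1
  push_cast at h
  linarith

private theorem fanout_of_lt {c : ℝ} (hc : c < 3 / 2) : FanOutGadget c := by
  classical
  refine ⟨3, 1, exP, 2, ∅, {0}, {1}, {2}, {S | 0 ∈ S}, {S | S.Nonempty}, {S | S.Nonempty}, ?_, ?_, ?_,
    ?_, ?_, ?_, ?_, ?_⟩
  · refine ⟨by simp, by simp, by simp, ?_, ?_, ?_⟩ <;> decide
  · intro S S' h h0
    rw [Set.mem_ofPred_eq] at h0 ⊢
    exact h h0
  · intro S _
    rw [Set.mem_ofPred_eq, Set.mem_ofPred_eq]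
    by_cases h : (0 : Fin 3) ∈ S
    · exact Or.inl h
    · exact Or.inr (Finset.mem_sdiff.2 ⟨Finset.mem_singleton_self _, h⟩)
  · rw [Set.mem_ofPred_eq]
    exact Finset.not_nonempty_empty
  · rw [Set.mem_ofPred_eq]
    exact Finset.not_nonempty_empty
  · rw [exP_iff]
    norm_num [exP]
  · rw [exP_iff, Finset.empty_union]
    have h : ({1} ∪ {2} : Finset (Fin 3)) = {1, 2} := by decide
    rw [h, Finset.sum_pair (by decide), show exP 0 1 = 1 from rfl, show exP 0 2 = 1 from rfl]
    norm_num
  · intro Z _ hZ h0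
    rw [Set.mem_ofPred_eq, Finset.mem_inter] at h0
    rw [Finset.empty_union] at hZ
    rw [Set.mem_ofPred_eq, Set.mem_ofPred_eq]
    constructor
    · refine ⟨1, Finset.mem_sdiff.2 ⟨Finset.mem_singleton_self _, fun h => ?_⟩⟩
      exact exP_pair hc h0.1 h (by decide) hZ
    · refine ⟨2, Finset.mem_sdiff.2 ⟨Finset.mem_singleton_self _, fun h => ?_⟩⟩
      exact exP_pair hc h0.1 h (by decide) hZ

private theorem lt_of_fanout {c : ℝ} (h : FanOutGadget c) : c < 3 / 2 := by
  classical
  by_contra hc
  push Not at hc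
  obtain ⟨n, m, p, T, N, I, A, B, FI, FA, FB, ⟨hNI, hNA, hNB, hIA, hIB, hAB⟩, hup, hcov, hFA, hFB,
    hI, hO, hS⟩ := h
  have hTn : (0 : ℝ) ≤ T := Nat.cast_nonneg _
  have hle : (3 / 2 : ℝ) * T ≤ c * T := mul_le_mul_of_nonneg_right hc hTn
  have hYX : (N ∪ (A ∪ B)) \ (N ∪ I) = A ∪ B := by
    ext j
    have h1 := @Finset.disjoint_left _ _ _ |>.1 hNA
    have h2 := @Finset.disjoint_left _ _ _ |>.1 hNB
    have h3 := @Finset.disjoint_left _ _ _ |>.1 hIA
    have h4 := @Finset.disjoint_left _ _ _ |>.1 hIB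
    have h1 := @h1 j
    have h2 := @h2 j
    have h3 := @h3 j
    have h4 := @h4 j
    simp only [Finset.mem_sdiff, Finset.mem_union]
    tauto
  have hXY : (N ∪ I) \ (N ∪ (A ∪ B)) = I := by
    ext j
    have h1 := Finset.disjoint_left.1 hNI
    have h3 := Finset.disjoint_left.1 hIA
    have h4 := Finset.disjoint_left.1 hIB
    have h1 := @h1 j
    have h3 := @h3 j
    have h4 := @h4 j
    simp only [Finset.mem_sdiff, Finset.mem_union]
    tauto
  obtain ⟨R, hR1, hR2, hR3⟩ := exchange (ι := Bool) p (T : ℝ) (N ∪ I) (N ∪ (A ∪ B)) hI hO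
    (fun b => if b = true then A else B)
    (fun b => by
      rw [hYX]
      cases b
      · simp
      · simp)
    (fun b b' hbb => by
      cases b <;> cases b'
      · exact absurd rfl hbb
      · simpa using hAB.symm
      · simpa using hAB
      · exact absurd rfl hbb)
  have hRI : ∀ b, R b ⊆ I := fun b => (hR1 b).trans hXY.le
  -- the two relaxed schedules
  have hA := hR3 true
  have hB := hR3 false
  rw [if_pos rfl] at hA
  rw [if_neg (by decide)] at hB
  have key : ∀ (b : Bool) (C : Finset (Fin n)), Disjoint N C → Disjoint I C → C ⊆ A ∪ B →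
      Schedulable p (3 / 2 * (T : ℝ)) (((N ∪ I) \ R b) ∪ C) → I \ R b ∈ FI →
      A \ ((I \ R b) ∪ C) ∈ FA ∧ B \ ((I \ R b) ∪ C) ∈ FB := by
    intro b C hNC hIC hCAB hsch hF
    have e1 : ((N ∪ I) \ R b) ∪ C = N ∪ ((I \ R b) ∪ C) := by
      ext j
      have h1 := Finset.disjoint_left.1 hNI
      have h1 := @h1 j
      have h2 := @hRI b j
      simp only [Finset.mem_sdiff, Finset.mem_union]
      tauto
    rw [e1] at hsch
    have e2 : ((I \ R b) ∪ C) ∩ I = I \ R b := by
      ext j
      have h1 := Finset.disjoint_left.1 hIC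
      have h1 := @h1 j
      simp only [Finset.mem_sdiff, Finset.mem_union, Finset.mem_inter]
      tauto
    have h3 := hS ((I \ R b) ∪ C)
      (Finset.union_subset_union Finset.sdiff_subset hCAB) (hsch.mono hle)
    rw [e2] at h3
    exact h3 hF
  have hAF : I \ R true ∉ FI := by
    intro hF
    have h := (key true A hNA hIA Finset.subset_union_left hA hF).1
    rw [Finset.sdiff_eq_empty_iff_subset.2 Finset.subset_union_right] at h
    exact hFA h
  have hBF : I \ R false ∉ FI := by
    intro hF
    have h := (key false B hNB hIB Finset.subset_union_right hB hF).2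
    rw [Finset.sdiff_eq_empty_iff_subset.2 Finset.subset_union_right] at h
    exact hFB h
  have h1 : R true ∈ FI := by
    rcases hcov (R true) (hRI true) with h | h
    · exact h
    · exact absurd h hAF
  apply hBF
  apply hup (R true) _ _ h1
  intro j hj
  exact Finset.mem_sdiff.2 ⟨hRI true hj, fun h => Finset.disjoint_left.1 (hR2 true false (by decide)) hj h⟩

private theorem augment_sharp {c : ℝ} (hc : c < 3 / 2) :
    ∃ (p : Fin 1 → Fin 3 → ℕ) (T : ℕ) (X Y : Finset (Fin 3)), Schedulable p T X ∧ Schedulable p T Y ∧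
      X.card < Y.card ∧ ∀ y ∈ Y \ X, ¬ Schedulable p (c * T) (insert y X) := by
  refine ⟨exP, 2, {0}, {1, 2}, ?_, ?_, by decide, ?_⟩
  · rw [exP_iff]
    norm_num [exP]
  · rw [exP_iff, Finset.sum_pair (by decide), show exP 0 1 = 1 from rfl, show exP 0 2 = 1 from rfl]
    norm_num
  · intro y hy
    apply exP_pair hc (j := y)
    · simp
    · simp
    · rintro rfl
      revert hy
      decide

/-- (1) The exchange theorem.  (2) The augmentation property holds for the factor `c` if and only if
`3 / 2 ≤ c`.  (3) Gadgets which copy a bit and tolerate the factor `c` exist if and only if `c < 3 / 2`. -/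
theorem result :
    (∀ (J M ι : Type) (_ : DecidableEq J) (_ : DecidableEq M) (p : M → J → ℕ) (T : ℝ) (X Y : Finset J),
      Schedulable p T X → Schedulable p T Y → ∀ A : ι → Finset J, (∀ k, A k ⊆ Y \ X) →
      (∀ k l, k ≠ l → Disjoint (A k) (A l)) →
      ∃ R : ι → Finset J, (∀ k, R k ⊆ X \ Y) ∧ (∀ k l, k ≠ l → Disjoint (R k) (R l)) ∧
        ∀ k, Schedulable p (3 / 2 * T) ((X \ R k) ∪ A k)) ∧
    (∀ c : ℝ, (∀ (n m : ℕ) (p : Fin m → Fin n → ℕ) (T : ℕ) (X Y : Finset (Fin n)),
      Schedulable p T X → Schedulable p T Y → X.card < Y.card →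
      ∃ y ∈ Y \ X, Schedulable p (c * T) (insert y X)) ↔ 3 / 2 ≤ c) ∧
    (∀ c : ℝ, FanOutGadget c ↔ c < 3 / 2) := by
  refine ⟨?_, ?_, ?_⟩
  · intro J M ι _ _ p T X Y hX hY A hA hd
    exact exchange p T X Y hX hY A hA hd
  · intro c
    constructor
    · intro h
      by_contra hc
      push Not at hc
      obtain ⟨p, T, X, Y, hX, hY, hcard, hno⟩ := augment_sharp hc
      obtain ⟨y, hy, hsch⟩ := h 3 1 p T X Y hX hY hcard
      exact hno y hy hsch
    · intro hc n m p T X Y hX hY hcard
      obtain ⟨y, hy, hsch⟩ := augment p T X Y hX hY hcard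
      exact ⟨y, hy, hsch.mono (mul_le_mul_of_nonneg_right hc (Nat.cast_nonneg _))⟩
  · intro c
    exact ⟨lt_of_fanout, fanout_of_lt⟩

end Pool.Agent.Results.MP_129990_lc.ExchangeThreshold
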