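import Pool.Agent.HetLP.EMain
import Pool.Agent.HetLP.UMain
import Pool.Agent.HetLP.UGap

/-!
# Makespan on unrelated machines: when the configuration LP beats 2

`MP_129990_lc`, Q1, restricted model. Instances of `R||Cmax` in which every job is either big (it
takes at least `e T` on every machine, otherwise its times are arbitrary unrelated numbers) or light
(at most `δ T`, and its times on the machines where it is allowed differ by a factor at most `α`). For
fixed `e > 0` and `α` the integrality gap of the configuration LP is smaller than `2` (at most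
`2 - 2⁻⁴² α⁻⁶` if the big jobs take more than half of the bound); it tends to `2` if `α` tends to
infinity (even for `e = 1`), and also if `e` tends to `0` (even without light jobs).
-/

namespace Pool.Agent.Results.MP_129990_lc.GapBelowTwo

/-- The configuration linear program with makespan bound `T` is feasible: every machine `i` has a
weight `y i C ≥ 0` for every set `C` of jobs (a configuration), nonzero only if the jobs of `C` take
at most `T` on `i`, of total weight at most one, and every job is covered with total weight at least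
one. -/
def ConfigFeasible {M J : Type} [Fintype M] [Fintype J] [DecidableEq J] (p : M → J → ℝ) (T : ℝ) :
    Prop :=
  ∃ y : M → Finset J → ℝ,
    (∀ i C, 0 ≤ y i C) ∧
    (∀ i C, y i C ≠ 0 → ∑ j ∈ C, p i j ≤ T) ∧
    (∀ i, ∑ C : Finset J, y i C ≤ 1) ∧
    (∀ j, 1 ≤ ∑ i, ∑ C : Finset J, if j ∈ C then y i C else 0)

/-- job `j` is big for the bound `T`: it takes at least `e T` on every machine (more than `T` means
that it is forbidden there) -/
def Big {M J : Type} (e : ℝ) (p : M → J → ℝ) (T : ℝ) (j : J) : Prop := ∀ i, e * T ≤ p i j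

/-- job `j` is light for the bound `T`, with heterogeneity at most `α` and size at most `ε T`: there is
`w ≥ 0` such that on every machine the job either takes more than `T` (it is forbidden there), or its
processing time is in the interval `[w, α w]` and at most `ε T` -/
def Light {M J : Type} (α ε : ℝ) (p : M → J → ℝ) (T : ℝ) (j : J) : Prop :=
  ∃ w : ℝ, 0 ≤ w ∧ ∀ i, T < p i j ∨ (w ≤ p i j ∧ p i j ≤ α * w ∧ p i j ≤ ε * T)

/-- the load of machine `i` in the schedule `σ` -/
def load {M J : Type} [DecidableEq M] [Fintype J] (p : M → J → ℝ) (σ : J → M) (i : M) : ℝ :=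
  ∑ j, if σ j = i then p i j else 0

/-- Part one: for all `e > 0` and `α ≥ 1` there is `δ > 0` such that for every instance whose jobs are
big (with `e`) or light (with `α` and `δ`) for the bound `T > 0`: if the configuration LP with bound
`T` is feasible then there is a schedule of makespan at most `(2 - δ) T`. Part two: if the big jobs take
more than `T / 2` on every machine then this holds with `δ = 2⁻⁴² α⁻⁶`. Part three: for every `α ≥ 1`
and `ε > 0` there is an instance whose jobs are big with `e = 1` or light with `α` and `ε` (`T = 1`),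
for which the configuration LP is feasible but every schedule has makespan at least
`2 - 2 / (α + 1)`. Part four: for every `n ≥ 1` there is an instance in which all jobs are big with
`e = 1 / n` (`T = 1`), for which the configuration LP is feasible but every schedule has makespan at
least `2 - 1 / n`. -/
theorem result :
    (∀ e α : ℝ, 0 < e → 1 ≤ α → ∃ δ : ℝ, 0 < δ ∧
      ∀ (M J : Type) [Fintype M] [Fintype J] [DecidableEq M] [DecidableEq J] (p : M → J → ℝ) (T : ℝ),
        0 < T → (∀ j, Big e p T j ∨ Light α δ p T j) → ConfigFeasible p T →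
        ∃ σ : J → M, ∀ i, load p σ i ≤ (2 - δ) * T) ∧
    (∀ α : ℝ, 1 ≤ α →
      ∀ (M J : Type) [Fintype M] [Fintype J] [DecidableEq M] [DecidableEq J] (p : M → J → ℝ) (T : ℝ),
        0 < T → (∀ j, (∀ i, T / 2 < p i j) ∨ Light α (1 / (2 ^ 42 * α ^ 6)) p T j) →
        ConfigFeasible p T →
        ∃ σ : J → M, ∀ i, load p σ i ≤ (2 - 1 / (2 ^ 42 * α ^ 6)) * T) ∧
    (∀ α ε : ℝ, 1 ≤ α → 0 < ε →
      ∃ (M J : Type) (_ : Fintype M) (_ : Fintype J) (_ : DecidableEq M) (_ : DecidableEq J)
        (p : M → J → ℝ),
        (∀ j, Big 1 p 1 j ∨ Light α ε p 1 j) ∧ ConfigFeasible p 1 ∧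
        ∀ σ : J → M, ∃ i, 2 - 2 / (α + 1) ≤ load p σ i) ∧
    (∀ n : ℕ, 1 ≤ n →
      ∃ (M J : Type) (_ : Fintype M) (_ : Fintype J) (_ : DecidableEq M) (_ : DecidableEq J)
        (p : M → J → ℝ),
        (∀ j, Big (1 / (n : ℝ)) p 1 j) ∧ ConfigFeasible p 1 ∧
        ∀ σ : J → M, ∃ i, 2 - 1 / (n : ℝ) ≤ load p σ i) := by
  refine ⟨?_, ?_, ?_, ?_⟩
  · intro e α he hα
    obtain ⟨δ, hδ, -, h⟩ := HetLP.umain (min e 1) α (lt_min he one_pos) (min_le_right _ _) hα
    refine ⟨δ, hδ, ?_⟩
    intro M J _ _ _ _ p T hT hj hc
    have hc' : HetLP.ConfigFeasible p T := by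
      obtain ⟨y, h1, h2, h3, h4⟩ := hc
      refine ⟨y, h1, h2, h3, fun j => ?_⟩
      convert h4 j
    have hj' : ∀ j, (∀ i, min e 1 * T ≤ p i j) ∨ HetLP.Light α δ p T j := by
      intro j
      rcases hj j with h1 | h1
      · exact Or.inl fun i => (mul_le_mul_of_nonneg_right (min_le_left _ _) hT.le).trans (h1 i)
      · exact Or.inr h1
    obtain ⟨σ, hσ⟩ := h M J p T hT hj' hc'
    refine ⟨σ, fun i => ?_⟩
    have := hσ i
    unfold HetLP.load at this
    unfold load
    convert this
  · intro α hα M J _ _ _ _ p T hT hj hc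
    have hc' : HetLP.ConfigFeasible p T := by
      obtain ⟨y, h1, h2, h3, h4⟩ := hc
      refine ⟨y, h1, h2, h3, fun j => ?_⟩
      convert h4 j
    obtain ⟨σ, hσ⟩ := HetLP.main α hα p T hT hj hc'
    refine ⟨σ, fun i => ?_⟩
    have := hσ i
    unfold HetLP.load HetLP.del at this
    unfold load
    convert this
  · intro α ε hα hε
    obtain ⟨M, J, fM, fJ, p, h1, ⟨y, g1, g2, g3, g4⟩, h3⟩ := HetLP.gap_light α hα ε hε
    refine ⟨M, J, fM, fJ, Classical.decEq M, Classical.decEq J, p, fun j => ?_,
      ⟨y, g1, g2, g3, fun j => ?_⟩, fun σ => ?_⟩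
    · rcases h1 j with h1 | h1
      · exact Or.inl fun i => by rw [one_mul]; exact h1 i
      · exact Or.inr h1
    · convert g4 j
    · obtain ⟨i, hi⟩ := h3 σ
      refine ⟨i, ?_⟩
      unfold HetLP.load at hi
      unfold load
      convert hi
  · intro n hn
    obtain ⟨M, J, fM, fJ, p, h1, ⟨y, g1, g2, g3, g4⟩, h3⟩ := HetLP.gap_big n hn
    refine ⟨M, J, fM, fJ, Classical.decEq M, Classical.decEq J, p, fun j i => ?_,
      ⟨y, g1, g2, g3, fun j => ?_⟩, fun σ => ?_⟩
    · rw [mul_one]; exact h1 i j
    · convert g4 j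
    · obtain ⟨i, hi⟩ := h3 σ
      refine ⟨i, ?_⟩
      unfold HetLP.load at hi
      unfold load
      convert hi

end Pool.Agent.Results.MP_129990_lc.GapBelowTwo
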