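import Pool.Agent.SOG.Final

/-!
# Makespan on unrelated machines: every constant level of the sum-of-squares hierarchy has
integrality gap 2

`MP_129990_lc`, Q1, restricted model (linear and semidefinite hierarchies). For every `t` and every
`ε > 0` there are an instance of `R||Cmax` and a bound `T` such that the level-`t` Lasserre
(sum-of-squares) relaxation of the assignment linear program with makespan bound `T`, in which the
assignments with `p i j > T` are forbidden, is feasible, but every schedule has makespan at least
`(2 - ε) T`.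
-/

namespace Pool.Agent.Results.MP_129990_lc.SosGapTwo

open MvPolynomial

/-- The level-`t` Lasserre relaxation of the assignment linear program for makespan `T` is feasible:
there is a pseudo-expectation `E`, a linear functional on the real polynomials in the variables
`x (i, j)` (job `j` is on machine `i`), normalised and nonnegative on squares of polynomials of
degree at most `t + 1`, which satisfies all equations of the program (`x² = x`; every job is on
exactly one machine; `x (i, j) = 0` if `p i j > T`) after multiplication with any polynomial, and the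
capacity inequalities `∑ j, p i j x (i, j) ≤ T` after multiplication with the square of any
polynomial of degree at most `t`. -/
def LasserreFeasible {M J : Type} [Fintype M] (t : ℕ) [Fintype J] (p : M → J → ℕ) (T : ℕ) : Prop :=
  ∃ E : MvPolynomial (M × J) ℝ →ₗ[ℝ] ℝ,
    E 1 = 1 ∧
    (∀ q : MvPolynomial (M × J) ℝ, q.totalDegree ≤ t + 1 → 0 ≤ E (q ^ 2)) ∧
    (∀ (i : M) (j : J) (q : MvPolynomial (M × J) ℝ), E ((X (i, j) ^ 2 - X (i, j)) * q) = 0) ∧
    (∀ (j : J) (q : MvPolynomial (M × J) ℝ), E ((∑ i : M, X (i, j) - 1) * q) = 0) ∧
    (∀ (i : M) (j : J), T < p i j → ∀ q : MvPolynomial (M × J) ℝ, E (X (i, j) * q) = 0) ∧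
    (∀ (i : M) (q : MvPolynomial (M × J) ℝ), q.totalDegree ≤ t →
      0 ≤ E ((C (T : ℝ) - ∑ j : J, C (p i j : ℝ) * X (i, j)) * q ^ 2))

open Classical in
/-- the load of machine `i` in the schedule `σ` -/
noncomputable def load {M J : Type} [Fintype J] (p : M → J → ℕ) (σ : J → M) (i : M) : ℕ :=
  ∑ j ∈ Finset.univ.filter (fun j => σ j = i), p i j

/-- For every level `t` and every `ε > 0` there are an instance of makespan minimisation on unrelated
machines and a bound `T > 0` such that the level-`t` Lasserre relaxation with makespan bound `T` is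
feasible, but in every schedule some machine has load at least `(2 - ε) T`. -/
theorem result (t : ℕ) (ε : ℝ) (hε : 0 < ε) :
    ∃ (M J : Type) (_ : Fintype M) (_ : Fintype J) (p : M → J → ℕ) (T : ℕ),
      0 < T ∧ LasserreFeasible t p T ∧ ∀ σ : J → M, ∃ i, (2 - ε) * T ≤ (load p σ i : ℝ) := by
  classical
  obtain ⟨M, J, fM, fJ, p, T, E, hT, h1, h2, h3, h4, h5, h6, h7⟩ :=
    SOG.main t (min ε 1) (lt_min hε one_pos) (lt_of_le_of_lt (min_le_right _ _) one_lt_two)
  refine ⟨M, J, fM, fJ, p, T, hT, ⟨E, h1, h2, h3, h4, h5, h6⟩, fun σ => ?_⟩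
  obtain ⟨i, hi⟩ := h7 σ
  refine ⟨i, ?_⟩
  have hT' : (0 : ℝ) < T := by exact_mod_cast hT
  have h8 : (2 - ε) * (T : ℝ) ≤ (2 - min ε 1) * T := by
    have := min_le_left ε 1
    nlinarith
  refine h8.trans (hi.trans (le_of_eq ?_))
  unfold load
  rw [Nat.cast_sum, Finset.sum_filter]

end Pool.Agent.Results.MP_129990_lc.SosGapTwo
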